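import Mathlib
import Pool.Agent.R312.A28

/-!
# Divisibility of the sums of `(28k²+18k+3) C(2k,k)⁴ C(3k,k) (-64)^(n-1-k)`

A WZ pair of Dougall type expresses the sum as
`(n/4) C(2n,n) C(3n,n) ∑_{2k<n} (2k+1) C(2n+2k,n+k) C(2n-2k-2,n-k-1) C(2n,n-2k-1)`,
and by Legendre's formula four times each summand is divisible by `(2n+1) n² C(2n,n)²`.  The
prime `2` is treated directly from the recurrence.
-/

set_option autoImplicit false

namespace Pool.Agent.Results.MP_147bb8_nt.Divisibility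

open Finset Nat Pool.Agent.R440 Pool.Agent.R312.WZ Pool.Agent.R312.A28

/-- the sum in question -/
def S (n : ℕ) : ℤ :=
  ∑ k ∈ range n, (28 * (k : ℤ) ^ 2 + 18 * k + 3) * ((2 * k).choose k : ℤ) ^ 4 *
    ((3 * k).choose k : ℤ) * (-64) ^ (n - 1 - k)

theorem T_diag (n : ℕ) : T n n = 0 := by
  unfold T
  rw [show (n : ℤ) - n - 1 = -1 by ring, cb_neg (by norm_num : (-1 : ℤ) < 0)]
  ring

theorem Φ_diag (n : ℕ) : Φ n (n + 1) = 0 := by
  unfold Φ
  rw [show (n : ℤ) - (n + 1 : ℕ) = -1 by push_cast; ring, cb_neg (by norm_num : (-1 : ℤ) < 0)]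
  ring

theorem Φ_zero (n : ℕ) : Φ n 0
    = (28 * n ^ 2 + 18 * n + 3) * ((2 * n).choose n : ℚ) ^ 4 * ((3 * n).choose n : ℚ) := by
  unfold Φ
  rw [show (n : ℤ) + (0 : ℕ) = n by simp, show (n : ℤ) - (0 : ℕ) = n by simp,
    show (n : ℤ) - 2 * (0 : ℕ) = n by simp, show (n : ℤ) + 2 * (0 : ℕ) = n by simp,
    cb_nat, rf_nat, cbq, c3q]
  have z1 := fz n
  have z2 := fz (2 * n)
  have z3 := fz (3 * n)
  push_cast
  field_simp
  ring

theorem S_eq (n : ℕ) : ∑ k ∈ range n, T n k = (S n : ℚ) := by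
  rw [wz_sum (-64) T Φ (fun n k _ => wz n k) T_diag Φ_diag n]
  unfold S
  push_cast
  refine Finset.sum_congr rfl fun j _ => ?_
  rw [Φ_zero]
  ring

/-- the modulus -/
def D (n : ℕ) : ℕ := (2 * n + 1) * n ^ 2 * ((2 * n).choose n) ^ 2

theorem T_int (n k : ℕ) (hk : k < n) : ∃ u : ℕ, 4 * T n k = (D n : ℚ) * u := by
  by_cases h : 2 * k < n
  · obtain ⟨u, hu⟩ := u_dvd n k h
    refine ⟨u, ?_⟩
    unfold T D
    rw [show (n : ℤ) + k = ((n + k : ℕ) : ℤ) by push_cast; ring,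
      show (n : ℤ) - k - 1 = ((n - k - 1 : ℕ) : ℤ) by omega,
      show (n : ℤ) - 2 * k - 1 = ((n - 2 * k - 1 : ℕ) : ℤ) by omega,
      show (n : ℤ) + 2 * k + 1 = ((n + 2 * k + 1 : ℕ) : ℤ) by push_cast; ring,
      cb_nat, cb_nat, rf_nat, rf_nat]
    push_cast
    rw [cbq, cbq, cbq]
    rw [show 2 * (n + k) = 2 * n + 2 * k by ring,
      show 2 * (n - k - 1) = 2 * n - 2 * k - 2 by omega]
    have h4 : (n ! : ℚ) = n * ((n - 1)! : ℚ) := by
      rw [show n = n - 1 + 1 by omega, Nat.factorial_succ, show n - 1 + 1 - 1 = n - 1 by omega]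
      push_cast
      rfl
    have h5 : ((3 * n)! : ℚ) * (((n - 1)! : ℚ) * (((2 * n + 2 * k)! : ℚ) *
        (((2 * n - 2 * k - 2)! : ℚ) * ((2 * (k : ℚ) + 1) * ((2 * k)! : ℚ)))))
        = (2 * (n : ℚ) + 1) * ((2 * n)! : ℚ) * (((n - 2 * k - 1)! : ℚ) *
          (((n + 2 * k + 1)! : ℚ) * (((n + k)! : ℚ) * (((n + k)! : ℚ) *
          (((n - k - 1)! : ℚ) * (((n - k - 1)! : ℚ) * ((2 * k)! : ℚ))))))) * u := by
      have h6 := hu
      rw [Nat.factorial_succ (2 * n), Nat.factorial_succ (2 * k)] at h6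
      exact_mod_cast h6
    have z0 : (n : ℚ) ≠ 0 := by
      have : n ≠ 0 := by omega
      exact_mod_cast this
    have z1 := fz (n - 1)
    have z2 := fz (2 * n)
    have z3 := fz (n + k)
    have z4 := fz (n - k - 1)
    have z5 := fz (n - 2 * k - 1)
    have z6 := fz (n + 2 * k + 1)
    have z7 := fz (2 * k)
    rw [h4]
    have h7 : ((3 * n)! : ℚ) * ((n - 1)! : ℚ) * ((2 * n + 2 * k)! : ℚ) *
        ((2 * n - 2 * k - 2)! : ℚ) * (2 * (k : ℚ) + 1)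
        = (2 * (n : ℚ) + 1) * ((2 * n)! : ℚ) * ((n - 2 * k - 1)! : ℚ) *
          ((n + 2 * k + 1)! : ℚ) * ((n + k)! : ℚ) ^ 2 * ((n - k - 1)! : ℚ) ^ 2 * u := by
      apply mul_right_cancel₀ z7
      linear_combination h5
    have h8 : ((3 * n)! : ℚ) = (2 * (n : ℚ) + 1) * ((2 * n)! : ℚ) * ((n - 2 * k - 1)! : ℚ) *
          ((n + 2 * k + 1)! : ℚ) * ((n + k)! : ℚ) ^ 2 * ((n - k - 1)! : ℚ) ^ 2 * u /
          (((n - 1)! : ℚ) * ((2 * n + 2 * k)! : ℚ) *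
        ((2 * n - 2 * k - 2)! : ℚ) * (2 * (k : ℚ) + 1)) := by
      have z8 := fz (2 * n + 2 * k)
      have z9 := fz (2 * n - 2 * k - 2)
      have z10 : 2 * (k : ℚ) + 1 ≠ 0 := by positivity
      rw [eq_div_iff (mul_ne_zero (mul_ne_zero (mul_ne_zero z1 z8) z9) z10)]
      linear_combination h7
    rw [h8]
    have z8 := fz (2 * n + 2 * k)
    have z9 := fz (2 * n - 2 * k - 2)
    have z10 : 2 * (k : ℚ) + 1 ≠ 0 := by positivity
    field_simp
  · refine ⟨0, ?_⟩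
    unfold T
    rw [rf_neg (by omega : (n : ℤ) - 2 * k - 1 < 0)]
    simp

theorem D_dvd (n : ℕ) : (D n : ℤ) ∣ 4 * S n := by
  have hex : ∀ k ∈ range n, ∃ u : ℕ, 4 * T n k = (D n : ℚ) * u :=
    fun k hk => T_int n k (Finset.mem_range.mp hk)
  choose! u hu using hex
  refine ⟨∑ k ∈ range n, (u k : ℤ), ?_⟩
  have h : (4 : ℚ) * (S n : ℚ) = (D n : ℚ) * ∑ k ∈ range n, (u k : ℚ) := by
    rw [← S_eq, Finset.mul_sum, Finset.mul_sum]
    exact Finset.sum_congr rfl fun k hk => hu k hk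
  exact_mod_cast h

theorem S_succ (n : ℕ) : S (n + 1) = -64 * S n + (28 * (n : ℤ) ^ 2 + 18 * n + 3) *
    ((2 * n).choose n : ℤ) ^ 4 * ((3 * n).choose n : ℤ) := by
  unfold S
  rw [Finset.sum_range_succ, Finset.mul_sum]
  congr 1
  · refine Finset.sum_congr rfl fun j hj => ?_
    have hj' := Finset.mem_range.mp hj
    rw [show n + 1 - 1 - j = (n - 1 - j) + 1 by omega, pow_succ]
    ring
  · simp

/-- 2-adic divisibility -/
theorem two_adic (n : ℕ) (hn : 1 ≤ n) :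
    ∃ c : ℤ, Odd c ∧ 4 * ((2 * n).choose n : ℤ) ^ 2 ∣ c * S (n + 1) := by
  induction n, hn using Nat.le_induction with
  | base =>
    refine ⟨1, odd_one, ?_⟩
    decide +kernel
  | succ n hn ih =>
    obtain ⟨c, hc, hd⟩ := ih
    refine ⟨c * (2 * n + 1) ^ 2, hc.mul (Odd.pow ⟨n, rfl⟩), ?_⟩
    have h1 := Nat.succ_mul_centralBinom_succ n
    unfold Nat.centralBinom at h1
    have h2 : (2 * (n + 1)).choose (n + 1) ∣ 2 * (2 * n + 1) * (2 * n).choose n :=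
      ⟨n + 1, by rw [← h1]; ring⟩
    have h3 : ((2 * (n + 1)).choose (n + 1) : ℤ) ∣ 2 * (2 * n + 1) * ((2 * n).choose n : ℤ) := by
      exact_mod_cast h2
    have h4 : (2 : ℤ) ∣ ((2 * (n + 1)).choose (n + 1) : ℤ) := by
      exact_mod_cast Nat.two_dvd_centralBinom_succ n
    rw [S_succ (n + 1), mul_add (c * (2 * (n : ℤ) + 1) ^ 2)]
    refine dvd_add ?_ ?_
    · have h5 : 4 * ((2 * (n + 1)).choose (n + 1) : ℤ) ^ 2
          ∣ 4 * (2 * (2 * n + 1) * ((2 * n).choose n : ℤ)) ^ 2 :=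
        mul_dvd_mul_left 4 (pow_dvd_pow_of_dvd h3 2)
      refine h5.trans ?_
      have h6 : (4 : ℤ) * (2 * (2 * n + 1) * ((2 * n).choose n : ℤ)) ^ 2
          = (4 * ((2 * n).choose n : ℤ) ^ 2) * (4 * (2 * n + 1) ^ 2) := by ring
      have h7 : c * (2 * (n : ℤ) + 1) ^ 2 * (-64 * S (n + 1))
          = (c * S (n + 1)) * (4 * (2 * n + 1) ^ 2) * (-16) := by ring
      rw [h6, h7]
      exact (mul_dvd_mul_right hd _).mul_right _
    · obtain ⟨w, hw⟩ := h4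
      rw [hw]
      refine ⟨c * (2 * (n : ℤ) + 1) ^ 2 * (28 * ((n + 1 : ℕ) : ℤ) ^ 2 + 18 * ((n + 1 : ℕ) : ℤ) + 3)
        * w ^ 2 * ((3 * (n + 1)).choose (n + 1) : ℤ), ?_⟩
      ring

theorem coprime_two_pow {e : ℕ} {c : ℤ} (hc : Odd c) : IsCoprime ((2 : ℤ) ^ e) c := by
  refine IsCoprime.pow_left ?_
  obtain ⟨m, rfl⟩ := hc
  exact ⟨-m, 1, by ring⟩

/-- Q2: for every `n > 1`, the sum is divisible by `(2n+1) n² C(2n,n)²`. -/
theorem result (n : ℕ) (hn : 1 < n) :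
    (((2 * n + 1) * n ^ 2 * ((2 * n).choose n) ^ 2 : ℕ) : ℤ) ∣
      ∑ k ∈ range n, (28 * (k : ℤ) ^ 2 + 18 * k + 3) * ((2 * k).choose k : ℤ) ^ 4 *
        ((3 * k).choose k : ℤ) * (-64) ^ (n - 1 - k) := by
  change (D n : ℤ) ∣ S n
  have h1 := D_dvd n
  obtain ⟨m, rfl⟩ : ∃ m, n = m + 1 := ⟨n - 1, by omega⟩
  obtain ⟨c, hc, h2⟩ := two_adic m (by omega)
  have hC := Nat.succ_mul_centralBinom_succ m
  unfold Nat.centralBinom at hC
  have hD : D (m + 1) = ((2 * m + 3) * (2 * m + 1) ^ 2) * (4 * ((2 * m).choose m) ^ 2) := by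
    unfold D
    calc (2 * (m + 1) + 1) * (m + 1) ^ 2 * ((2 * (m + 1)).choose (m + 1)) ^ 2
        = (2 * m + 3) * ((m + 1) * (2 * (m + 1)).choose (m + 1)) ^ 2 := by ring
      _ = _ := by rw [hC]; ring
  have hD0 : D (m + 1) ≠ 0 := by
    rw [hD]
    have : (2 * m).choose m ≠ 0 := (Nat.choose_pos (by omega)).ne'
    positivity
  obtain ⟨e, w, hw, hDw⟩ := Nat.exists_eq_pow_mul_and_not_dvd hD0 2 (by norm_num)
  have hwodd : Odd (w : ℤ) := by
    have : Odd w := Nat.not_even_iff_odd.mp fun h => hw (even_iff_two_dvd.mp h)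
    exact_mod_cast this
  have h3 : ((2 : ℤ) ^ e) ∣ 4 * ((2 * m).choose m : ℤ) ^ 2 := by
    have h4 : ((2 : ℤ) ^ e) ∣ (((2 * m + 3) * (2 * m + 1) ^ 2 : ℕ) : ℤ) *
        (4 * ((2 * m).choose m : ℤ) ^ 2) := by
      have h5 : (2 ^ e) ∣ ((2 * m + 3) * (2 * m + 1) ^ 2) * (4 * ((2 * m).choose m) ^ 2) := by
        rw [← hD, hDw]
        exact Nat.dvd_mul_right _ _
      exact_mod_cast h5
    refine (coprime_two_pow ?_).dvd_of_dvd_mul_left h4
    have : Odd ((2 * m + 3) * (2 * m + 1) ^ 2) := by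
      refine Odd.mul ⟨m + 1, by ring⟩ (Odd.pow ⟨m, rfl⟩)
    exact_mod_cast this
  have h4 : ((2 : ℤ) ^ e) ∣ S (m + 1) :=
    (coprime_two_pow hc).dvd_of_dvd_mul_left (h3.trans h2)
  have h5 : (w : ℤ) ∣ S (m + 1) := by
    have h6 : (w : ℤ) ∣ 4 * S (m + 1) := by
      refine Dvd.dvd.trans ?_ h1
      rw [hDw]
      push_cast
      exact Dvd.intro_left _ rfl
    have h7 : IsCoprime (w : ℤ) 4 := by
      have := (coprime_two_pow (e := 2) hwodd).symm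
      norm_num at this
      exact this
    exact h7.dvd_of_dvd_mul_left h6
  rw [hDw]
  push_cast
  exact (coprime_two_pow hwodd).mul_dvd h4 h5

end Pool.Agent.Results.MP_147bb8_nt.Divisibility
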